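import Mathlib

/-!
# Distortion of norms: definitions (problem MP_cb5a96_an)
-/

namespace Pool.Agent.DIS

variable {X : Type} [NormedAddCommGroup X] [NormedSpace ℝ X]

/-- `p` is a norm on `X` equivalent to the given one. -/
def EqvNorm (p : Seminorm ℝ X) : Prop :=
  ∃ c C : ℝ, 0 < c ∧ ∀ x : X, c * ‖x‖ ≤ p x ∧ p x ≤ C * ‖x‖

/-- A closed subspace of infinite dimension. -/
def Big (Z : Submodule ℝ X) : Prop := IsClosed (Z : Set X) ∧ ¬ FiniteDimensional ℝ Z

/-- The norm `p` distorts the norm `q` by the factor `lam` on the subspace `Z`: for every closed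
infinite-dimensional subspace `W` of `Z`, the supremum of `p y₁ / p y₂` over the `y₁`, `y₂` in `W`
with `q y₁ = q y₂ = 1` is at least `lam`. -/
def Distorts (p q : Seminorm ℝ X) (lam : ℝ) (Z : Submodule ℝ X) : Prop :=
  ∀ W : Submodule ℝ X, W ≤ Z → Big W → ∀ μ : ℝ, μ < lam →
    ∃ y₁ ∈ W, ∃ y₂ ∈ W, q y₁ = 1 ∧ q y₂ = 1 ∧ μ * p y₂ < p y₁

end Pool.Agent.DIS
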