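import Pool.Agent.DIS.Defs

/-!
# Simultaneous distortion
-/

namespace Pool.Agent.DIS

variable {X : Type} [NormedAddCommGroup X] [NormedSpace ℝ X]

theorem EqvNorm.pos {p : Seminorm ℝ X} (hp : EqvNorm p) {x : X} (hx : x ≠ 0) : 0 < p x := by
  obtain ⟨c, C, hc, h⟩ := hp
  exact lt_of_lt_of_le (mul_pos hc (norm_pos_iff.2 hx)) (h x).1

theorem ne_zero_of_eq_one {p : Seminorm ℝ X} {x : X} (h : p x = 1) : x ≠ 0 := by
  rintro rfl
  rw [map_zero] at h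
  exact zero_ne_one h

theorem eqvNorm_norm : EqvNorm (normSeminorm ℝ X) :=
  ⟨1, 1, one_pos, fun x => by simp⟩

theorem Big.exists_ne {Z : Submodule ℝ X} (hZ : Big Z) : ∃ x ∈ Z, x ≠ 0 := by
  by_contra h
  push Not at h
  apply hZ.2
  have : Z = ⊥ := by
    rw [Submodule.eq_bot_iff]
    exact h
  rw [this]
  infer_instance

/-- If the factor is not reached, the oscillation is smaller on a subspace. -/
theorem not_distorts {p q : Seminorm ℝ X} (hp : EqvNorm p) (hq : EqvNorm q) {lam : ℝ}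
    {Z : Submodule ℝ X} (h : ¬ Distorts p q lam Z) :
    ∃ W : Submodule ℝ X, W ≤ Z ∧ Big W ∧ ∃ μ : ℝ, μ < lam ∧
      ∀ y₁ ∈ W, ∀ y₂ ∈ W, y₁ ≠ 0 → y₂ ≠ 0 → p y₁ * q y₂ ≤ μ * (p y₂ * q y₁) := by
  unfold Distorts at h
  push Not at h
  obtain ⟨W, hW, hB, μ, hμ, h⟩ := h
  refine ⟨W, hW, hB, μ, hμ, ?_⟩
  intro y₁ h1 y₂ h2 n1 n2
  have q1 := hq.pos n1
  have q2 := hq.pos n2
  have e1 : q ((q y₁)⁻¹ • y₁) = 1 := by
    rw [map_smul_eq_mul, Real.norm_eq_abs, abs_of_pos (inv_pos.2 q1), inv_mul_cancel₀ q1.ne']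
  have e2 : q ((q y₂)⁻¹ • y₂) = 1 := by
    rw [map_smul_eq_mul, Real.norm_eq_abs, abs_of_pos (inv_pos.2 q2), inv_mul_cancel₀ q2.ne']
  have h3 := h _ (W.smul_mem _ h1) _ (W.smul_mem _ h2) e1 e2
  rw [map_smul_eq_mul, map_smul_eq_mul, Real.norm_eq_abs, Real.norm_eq_abs,
    abs_of_pos (inv_pos.2 q1), abs_of_pos (inv_pos.2 q2)] at h3
  have h4 := mul_le_mul_of_nonneg_left h3 (mul_pos q1 q2).le
  calc p y₁ * q y₂ = q y₁ * q y₂ * ((q y₁)⁻¹ * p y₁) := by field_simp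
    _ ≤ q y₁ * q y₂ * (μ * ((q y₂)⁻¹ * p y₂)) := h4
    _ = μ * (p y₂ * q y₁) := by field_simp

/-- The ratio of the two norms has two fixed values, far from each other, on every subspace of
some subspace. -/
theorem stabilize {B : Seminorm ℝ X} (hB : EqvNorm B) (hX : Big (⊤ : Submodule ℝ X))
    {lam κ : ℝ} (hκ : 0 < κ) (hκl : κ < lam) (h : Distorts B (normSeminorm ℝ X) lam ⊤) :
    ∃ Z : Submodule ℝ X, Big Z ∧ ∃ R₁ R₂ : ℝ, 0 < R₂ ∧ κ * R₂ ≤ R₁ ∧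
      ∀ W : Submodule ℝ X, W ≤ Z → Big W →
        (∃ y ∈ W, y ≠ 0 ∧ R₁ * ‖y‖ ≤ B y) ∧ ∃ y ∈ W, y ≠ 0 ∧ B y ≤ R₂ * ‖y‖ := by
  obtain ⟨c, C, hc, hcC⟩ := hB
  -- upper bounds of the ratio on a subspace
  set U : Set ℝ := {R | ∃ W : Submodule ℝ X, Big W ∧ ∀ y ∈ W, B y ≤ R * ‖y‖} with hU
  have hUne : U.Nonempty := ⟨C, ⊤, hX, fun y _ => (hcC y).2⟩
  have hUb : ∀ R ∈ U, c ≤ R := by
    rintro R ⟨W, hW, hR⟩
    obtain ⟨x, hx, hx0⟩ := hW.exists_ne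
    have h1 := (hcC x).1.trans (hR x hx)
    exact le_of_mul_le_mul_right h1 (norm_pos_iff.2 hx0)
  have hbdd : BddBelow U := ⟨c, hUb⟩
  set I := sInf U with hI
  have hIc : c ≤ I := le_csInf hUne hUb
  have hI0 : 0 < I := lt_of_lt_of_le hc hIc
  obtain ⟨κ', h1, h2⟩ := exists_between hκl
  have hκ' : 0 < κ' := hκ.trans h1
  set θ := √(κ' / κ) with hθ
  have hq1 : 1 < κ' / κ := (one_lt_div hκ).2 h1
  have hθ1 : 1 < θ := by
    rw [hθ, Real.lt_sqrt (by norm_num)]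
    simpa using hq1
  have hθ2 : θ * θ = κ' / κ := Real.mul_self_sqrt (by positivity)
  have hθ0 : 0 < θ := by linarith
  obtain ⟨R, ⟨Z, hZ, hR⟩, hRI⟩ : ∃ R ∈ U, R < θ * I := by
    refine exists_lt_of_csInf_lt hUne ?_
    rw [← hI]
    nlinarith
  refine ⟨Z, hZ, I / θ, θ * I / κ', by positivity, ?_, ?_⟩
  · rw [div_eq_mul_inv, le_div_iff₀ hθ0]
    have : κ * (θ * I * κ'⁻¹) * θ = (θ * θ) * (κ / κ') * I := by
      field_simp
    rw [this, hθ2]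
    have e : κ' / κ * (κ / κ') = 1 := by field_simp
    rw [e, one_mul]
  · intro W hWZ hW
    constructor
    · by_contra hcon
      push Not at hcon
      have h3 : I / θ ∈ U := by
        refine ⟨W, hW, fun y hy => ?_⟩
        by_cases hy0 : y = 0
        · simp [hy0]
        · exact (hcon y hy hy0).le
      have h4 : I ≤ I / θ := csInf_le hbdd h3
      have h5 : I / θ < I := div_lt_self hI0 hθ1
      linarith
    · obtain ⟨y₁, m1, y₂, m2, e1, e2, h3⟩ := h W le_top hW κ' h2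
      refine ⟨y₂, m2, ne_zero_of_eq_one e2, ?_⟩
      have e1' : ‖y₁‖ = 1 := e1
      have e2' : ‖y₂‖ = 1 := e2
      have h4 := hR y₁ (hWZ m1)
      rw [e1', mul_one] at h4
      rw [e2', mul_one, le_div_iff₀ hκ']
      linarith

/-- The chain of norms. -/
noncomputable def chain (B : Seminorm ℝ X) (R₁ R₂ x : ℝ) : Seminorm ℝ X :=
  (Real.toNNReal (R₁ - x * R₂)) • normSeminorm ℝ X + (Real.toNNReal (x - 1)) • B

theorem chain_apply (B : Seminorm ℝ X) {R₁ R₂ x : ℝ} (h1 : x * R₂ ≤ R₁)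
    (h2 : 1 ≤ x) (y : X) :
    chain B R₁ R₂ x y = (R₁ - x * R₂) * ‖y‖ + (x - 1) * B y := by
  unfold chain
  rw [Seminorm.add_apply, Seminorm.smul_apply, Seminorm.smul_apply, NNReal.smul_def,
    NNReal.smul_def, Real.coe_toNNReal _ (by linarith), Real.coe_toNNReal _ (by linarith)]
  rfl

theorem chain_eqv {B : Seminorm ℝ X} (hB : EqvNorm B) {R₁ R₂ x : ℝ} (h0 : 0 < R₂)
    (h3 : R₂ < R₁) (h1 : x * R₂ ≤ R₁) (h2 : 1 ≤ x) : EqvNorm (chain B R₁ R₂ x) := by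
  obtain ⟨c, C, hc, h⟩ := hB
  rcases eq_or_lt_of_le h2 with he | hlt
  · refine ⟨R₁ - x * R₂, R₁ - x * R₂, ?_, fun y => ?_⟩
    · rw [← he]; linarith
    · rw [chain_apply B h1 h2, ← he]
      simp
  · refine ⟨(x - 1) * c, (R₁ - x * R₂) + (x - 1) * C, mul_pos (by linarith) hc, fun y => ?_⟩
    rw [chain_apply B h1 h2]
    have hy := norm_nonneg y
    have a1 := mul_le_mul_of_nonneg_left (h y).1 (by linarith : 0 ≤ x - 1)
    have a2 := mul_le_mul_of_nonneg_left (h y).2 (by linarith : 0 ≤ x - 1)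
    have a3 : 0 ≤ (R₁ - x * R₂) * ‖y‖ := mul_nonneg (by linarith) hy
    constructor
    · nlinarith
    · nlinarith

/-- On a vector of large ratio. -/
theorem chain_high (B : Seminorm ℝ X) {R₁ R₂ x x' : ℝ} (h1 : x * R₂ ≤ R₁) (h2 : 1 ≤ x)
    (h1' : x' * R₂ ≤ R₁) (h2' : x ≤ x') {y : X} (hy : R₁ * ‖y‖ ≤ B y) :
    x' * chain B R₁ R₂ x y ≤ x * chain B R₁ R₂ x' y := by
  rw [chain_apply B h1 h2, chain_apply B h1' (h2.trans h2')]
  have : x * ((R₁ - x' * R₂) * ‖y‖ + (x' - 1) * B y) -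
      x' * ((R₁ - x * R₂) * ‖y‖ + (x - 1) * B y) = (x' - x) * (B y - R₁ * ‖y‖) := by ring
  have h5 : 0 ≤ (x' - x) * (B y - R₁ * ‖y‖) := mul_nonneg (by linarith) (by linarith)
  linarith

/-- On a vector of small ratio. -/
theorem chain_low (B : Seminorm ℝ X) {R₁ R₂ x x' : ℝ} (h1 : x * R₂ ≤ R₁) (h2 : 1 ≤ x)
    (h1' : x' * R₂ ≤ R₁) (h2' : x ≤ x') {y : X} (hy : B y ≤ R₂ * ‖y‖) :
    chain B R₁ R₂ x' y ≤ chain B R₁ R₂ x y := by
  rw [chain_apply B h1 h2, chain_apply B h1' (h2.trans h2')]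
  have : ((R₁ - x * R₂) * ‖y‖ + (x - 1) * B y) - ((R₁ - x' * R₂) * ‖y‖ + (x' - 1) * B y)
      = (x' - x) * (R₂ * ‖y‖ - B y) := by ring
  have h5 : 0 ≤ (x' - x) * (R₂ * ‖y‖ - B y) := mul_nonneg (by linarith) (by linarith)
  linarith

/-- The finite descent. -/
theorem descent {k : ℕ} {P : ℕ → Seminorm ℝ X} {N : Fin k → Seminorm ℝ X}
    (hP : ∀ j, j ≤ k → EqvNorm (P j)) (hN : ∀ i, EqvNorm (N i)) {μ : ℝ}
    {Z : Submodule ℝ X} (hZ : Big Z)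
    (hcon : ∀ j, j ≤ k → ∀ W : Submodule ℝ X, W ≤ Z → Big W → ∃ i, ¬ Distorts (P j) (N i) μ W)
    (m : ℕ) (hm : m ≤ k + 1) :
    ∃ W : Submodule ℝ X, W ≤ Z ∧ Big W ∧ ∀ j, j < m → ∃ i, ∃ ν : ℝ, ν < μ ∧
      ∀ y₁ ∈ W, ∀ y₂ ∈ W, y₁ ≠ 0 → y₂ ≠ 0 → P j y₁ * N i y₂ ≤ ν * (P j y₂ * N i y₁) := by
  induction m with
  | zero => exact ⟨Z, le_rfl, hZ, fun j hj => absurd hj (Nat.not_lt_zero j)⟩
  | succ m ih =>
    obtain ⟨W, hWZ, hW, h⟩ := ih (by omega)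
    obtain ⟨i, hi⟩ := hcon m (by omega) W hWZ hW
    obtain ⟨W', hW', hB, ν, hν, h'⟩ := not_distorts (hP m (by omega)) (hN i) hi
    refine ⟨W', hW'.trans hWZ, hB, fun j hj => ?_⟩
    rcases Nat.lt_succ_iff_lt_or_eq.1 hj with hj | rfl
    · obtain ⟨i', ν', hν', h''⟩ := h j hj
      exact ⟨i', ν', hν', fun y₁ m1 y₂ m2 => h'' y₁ (hW' m1) y₂ (hW' m2)⟩
    · exact ⟨i, ν, hν, h'⟩

/-- **Simultaneous distortion.** -/
theorem simultaneous (hX : Big (⊤ : Submodule ℝ X)) {B : Seminorm ℝ X} (hB : EqvNorm B)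
    {lam : ℝ} (h : Distorts B (normSeminorm ℝ X) lam ⊤) {k : ℕ} (hk : 0 < k)
    (N : Fin k → Seminorm ℝ X) (hN : ∀ i, EqvNorm (N i)) {μ : ℝ} (hμ : 1 < μ)
    (hμl : μ ^ (2 * k) < lam) :
    ∃ Z : Submodule ℝ X, Big Z ∧ ∃ P : Seminorm ℝ X, EqvNorm P ∧
      ∀ i, Distorts P (N i) μ Z := by
  have hμ0 : 0 < μ := by linarith
  obtain ⟨Z, hZ, R₁, R₂, hR2, hR, hst⟩ := stabilize hB hX (pow_pos hμ0 (2 * k)) hμl h
  have hk1 : 1 < μ ^ (2 * k) := one_lt_pow₀ hμ (by omega)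
  have hR12 : R₂ < R₁ := by nlinarith
  have hx1 : ∀ j : ℕ, 1 ≤ μ ^ (2 * j) := fun j => one_le_pow₀ hμ.le
  have hxR : ∀ j : ℕ, j ≤ k → μ ^ (2 * j) * R₂ ≤ R₁ := by
    intro j hj
    have : μ ^ (2 * j) ≤ μ ^ (2 * k) := pow_le_pow_right₀ hμ.le (by omega)
    have := mul_le_mul_of_nonneg_right this hR2.le
    linarith
  set P : ℕ → Seminorm ℝ X := fun j => chain B R₁ R₂ (μ ^ (2 * j)) with hP
  have hPe : ∀ j, j ≤ k → EqvNorm (P j) := fun j hj => chain_eqv hB hR2 hR12 (hxR j hj) (hx1 j)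
  by_contra hcon
  have hcon' : ∀ j, j ≤ k → ∀ W : Submodule ℝ X, W ≤ Z → Big W →
      ∃ i, ¬ Distorts (P j) (N i) μ W := by
    intro j hj W hWZ hW
    by_contra hc
    push Not at hc
    exact hcon ⟨W, hW, P j, hPe j hj, hc⟩
  obtain ⟨W, hWZ, hW, hd⟩ := descent hPe hN hZ hcon' (k + 1) le_rfl
  have hd' : ∀ j : Fin (k + 1), ∃ i, ∃ ν : ℝ, ν < μ ∧
      ∀ y₁ ∈ W, ∀ y₂ ∈ W, y₁ ≠ 0 → y₂ ≠ 0 → P j y₁ * N i y₂ ≤ ν * (P j y₂ * N i y₁) :=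
    fun j => hd j j.2
  choose f ν hν hd' using hd'
  obtain ⟨j, j', hne, hf⟩ := Fintype.exists_ne_map_eq_of_card_lt f (by simp)
  -- the key inequality for a pair j < j'
  have key : ∀ j j' : Fin (k + 1), j < j' → f j = f j' → False := by
    intro j j' hjj hf
    have hjk : (j : ℕ) ≤ k := Nat.lt_succ_iff.1 j.2
    have hjk' : (j' : ℕ) ≤ k := Nat.lt_succ_iff.1 j'.2
    have hlt : (j : ℕ) < j' := hjj
    obtain ⟨⟨y₁, m1, n1, b1⟩, ⟨y₂, m2, n2, b2⟩⟩ := hst W hWZ hW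
    have hxx : μ ^ (2 * (j : ℕ)) ≤ μ ^ (2 * (j' : ℕ)) := pow_le_pow_right₀ hμ.le (by omega)
    have hi := chain_high B (hxR j hjk) (hx1 j) (hxR j' hjk') hxx b1
    have lo := chain_low B (hxR j hjk) (hx1 j) (hxR j' hjk') hxx b2
    change μ ^ (2 * (j' : ℕ)) * P j y₁ ≤ μ ^ (2 * (j : ℕ)) * P j' y₁ at hi
    change P j' y₂ ≤ P j y₂ at lo
    -- `P j' y₁ * N y₂ ≤ ν j' * (P j' y₂ * N y₁)`, `P j y₂ * N y₁ ≤ ν j * (P j y₁ * N y₂)`
    have e1 := hd' j' y₁ m1 y₂ m2 n1 n2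
    have e2 := hd' j y₂ m2 y₁ m1 n2 n1
    rw [hf] at e2
    set a := N (f j') y₁
    set b := N (f j') y₂
    have ha : 0 < a := (hN _).pos n1
    have hb : 0 < b := (hN _).pos n2
    have p1 : 0 < P j y₁ := (hPe j hjk).pos n1
    have p2 : 0 < P j y₂ := (hPe j hjk).pos n2
    have p1' : 0 < P j' y₁ := (hPe j' hjk').pos n1
    have p2' : 0 < P j' y₂ := (hPe j' hjk').pos n2
    have hνj : 0 < ν j := by
      by_contra hh
      have := mul_nonpos_of_nonpos_of_nonneg (not_lt.1 hh) (mul_pos p1 hb).le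
      have := mul_pos p2 ha
      linarith
    have hνj' : 0 < ν j' := by
      by_contra hh
      have := mul_nonpos_of_nonpos_of_nonneg (not_lt.1 hh) (mul_pos p2' ha).le
      have := mul_pos p1' hb
      linarith
    have t1 : P j' y₁ * b ≤ ν j' * ν j * (P j y₁ * b) := by
      calc P j' y₁ * b ≤ ν j' * (P j' y₂ * a) := e1
        _ ≤ ν j' * (P j y₂ * a) := by
            apply mul_le_mul_of_nonneg_left _ hνj'.le
            exact mul_le_mul_of_nonneg_right lo ha.le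
        _ ≤ ν j' * (ν j * (P j y₁ * b)) := mul_le_mul_of_nonneg_left e2 hνj'.le
        _ = ν j' * ν j * (P j y₁ * b) := by ring
    have t2 : P j' y₁ ≤ ν j' * ν j * P j y₁ := by
      have : P j' y₁ * b ≤ (ν j' * ν j * P j y₁) * b := by rw [mul_assoc]; exact t1
      exact le_of_mul_le_mul_right this hb
    have hνμ : ν j' * ν j < μ * μ := mul_lt_mul'' (hν j') (hν j) hνj'.le hνj.le
    have hpw : μ ^ (2 * (j : ℕ)) * (μ * μ) ≤ μ ^ (2 * (j' : ℕ)) := by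
      have : μ ^ (2 * (j : ℕ)) * (μ * μ) = μ ^ (2 * (j : ℕ) + 2) := by ring
      rw [this]
      exact pow_le_pow_right₀ hμ.le (by omega)
    have hpj : 0 < μ ^ (2 * (j : ℕ)) := pow_pos hμ0 _
    have t3 : μ ^ (2 * (j : ℕ)) * (μ * μ) * P j y₁ ≤ μ ^ (2 * (j : ℕ)) * (ν j' * ν j) * P j y₁ := by
      calc μ ^ (2 * (j : ℕ)) * (μ * μ) * P j y₁ ≤ μ ^ (2 * (j' : ℕ)) * P j y₁ :=
            mul_le_mul_of_nonneg_right hpw p1.le
        _ ≤ μ ^ (2 * (j : ℕ)) * P j' y₁ := hi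
        _ ≤ μ ^ (2 * (j : ℕ)) * (ν j' * ν j * P j y₁) := mul_le_mul_of_nonneg_left t2 hpj.le
        _ = _ := by ring
    have t4 : μ ^ (2 * (j : ℕ)) * (μ * μ) ≤ μ ^ (2 * (j : ℕ)) * (ν j' * ν j) :=
      le_of_mul_le_mul_right t3 p1
    have t5 : μ * μ ≤ ν j' * ν j := le_of_mul_le_mul_left t4 hpj
    linarith
  rcases lt_or_gt_of_ne hne with hl | hl
  · exact key j j' hl hf
  · exact key j' j hl hf.symm

end Pool.Agent.DIS
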